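import Pool.Agent.Helper76.LD7.Num
import Pool.Agent.Helper94.LD7.TTA
import Pool.Agent.Helper68.LD7.TTB1
import Pool.Agent.Helper47.LD7.TTB2

/-!
# Project LD7, block TST: the test time of a class
-/

set_option autoImplicit false

namespace Pool.Agent.Helper30.LD7

open Set
open Pool.Agent.Helper41.LD5 (fp pwf nuP)
open Pool.Agent.Helper41.LD7 Pool.Agent.Helper76.LD7 Pool.Agent.Helper94.LD7 Pool.Agent.Helper68.LD7 Pool.Agent.Helper47.LD7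

/-- a time of the class `i` after the time `t₁` -/
theorem exists_class {Q i : ℕ} (hi : i < Q) (n₀ t₁ : ℕ) : ∃ t, t₁ ≤ t ∧ t < t₁ + Q ∧ (n₀ + t) % Q = i := by
  have hQ : 0 < Q := by omega
  have hr : (n₀ + t₁) % Q < Q := Nat.mod_lt _ hQ
  refine ⟨t₁ + (i + Q - (n₀ + t₁) % Q) % Q, by omega, ?_, ?_⟩
  · have := Nat.mod_lt (i + Q - (n₀ + t₁) % Q) hQ
    omega
  · have h1 : n₀ + (t₁ + (i + Q - (n₀ + t₁) % Q) % Q) = (n₀ + t₁) + (i + Q - (n₀ + t₁) % Q) % Q := by ring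
    rw [h1, Nat.add_mod, Nat.mod_mod]
    generalize (n₀ + t₁) % Q = r at hr
    rw [Nat.add_mod_mod]
    have h2 : r + (i + Q - r) = i + Q := by omega
    rw [h2, Nat.add_mod_right, Nat.mod_eq_of_lt hi]

variable {F : Pm} {K : ℕ} {a₀ ℓst a ℓ : ℝ}

/-- the test time `t` of the class `i`, at most `Q` after the first one with `2 ^ (C₂ E) ≤ V t a₀ * ℓ` -/
theorem test_time (hF : F.Ok) (hK : F.Big K) (S : F.St K a₀ ℓst) (hℓ : 0 < ℓ) (h1 : a₀ ≤ a) (h2 : a + ℓ ≤ a₀ + ℓst)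
    (hcount : F.T K a₀ ℓst (ℓ / 2 ^ (K ^ 3)) + F.R * F.E K ≤ 2 ^ (2 * K)) {i : ℕ} (hi : i < F.Q) :
    ∃ t < 2 ^ (2 * K), (F.n₀ K a₀ ℓst + t) % F.Q = i ∧
      (2 : ℝ) ^ (F.C₂ * F.E K) ≤ F.V K a₀ ℓst t a₀ * ℓ ∧ F.V K a₀ ℓst (t + F.d) (a + ℓ) * ℓ ≤ 2 ^ ((F.C₂ + 1) * F.E K) := by
  classical
  have hKbig := num_K hK
  have hZ := num_Z hK
  obtain ⟨hX1, hd4, -, -, -, -, -, hC2, hRZ, -, -, -, -, -, -, -⟩ := num_le hF
  obtain ⟨hE4, hEZ, -, -⟩ := num_E hF K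
  have hZE := num_ZE hF hK
  have hA := hF.hA
  have hQX := hF.hQX
  have ha0 : F.x₁ ≤ a₀ := S.lo
  have ha01 : 1 < a₀ := lt_of_lt_of_le hF.h1 ha0
  have ha0p : 0 < a₀ := by linarith
  have hst : 0 < ℓst := S.pos
  have hle : ℓ ≤ ℓst := by linarith
  have hE1 : 1 ≤ F.E K := by omega
  -- `ℓst ≤ 1`
  have hst1 : ℓst ≤ 1 := by
    have h3 : (1 : ℝ) ≤ 2 ^ (K ^ 4) := one_le_pow₀ (by norm_num)
    have h4 := S.sm
    calc ℓst = ℓst * 1 := (mul_one _).symm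
      _ ≤ ℓst * 2 ^ (K ^ 4) := mul_le_mul_of_nonneg_left h3 hst.le
      _ ≤ 1 := h4
  have hTh0 : 0 ≤ F.Th K := by unfold Pm.Th; positivity
  have hThg := Th_ge hF hK
  -- the number of the doublings
  set B : ℝ := 2 ^ (K ^ 3) with hB
  have hB1 : (1 : ℝ) ≤ B := one_le_pow₀ (by norm_num)
  have hℓB : 0 < ℓ / B := by positivity
  have hℓB' : ℓ / B ≤ ℓst := (div_le_self hℓ.le hB1).trans hle
  have hmono : Tt F.A₀ F.P (F.Th K) a₀ ℓst ≤ Tt F.A₀ F.P (F.Th K) a₀ (ℓ / B) := Tt_mono hF ha0 hℓB hℓB'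
  -- the exponent `C₂ E ≤ C₁ E + K ^ 3`
  have hexp : F.C₂ * F.E K ≤ F.C₁ * F.E K + K ^ 3 := by
    have h3 : F.C₂ * F.E K ≤ F.Z * F.E K := Nat.mul_le_mul_right _ (by omega)
    have h4 : K ^ 2 ≤ K ^ 3 := Nat.pow_le_pow_right (by omega) (by norm_num)
    have h5 : F.Z * F.E K ≤ 1000000 * (F.Z * F.E K) := Nat.le_mul_of_pos_left _ (by norm_num)
    omega
  have hex : ∃ j, (2 : ℝ) ^ (F.C₂ * F.E K) ≤ F.V K a₀ ℓst j a₀ * ℓ ∧ j ≤ F.T K a₀ ℓst (ℓ / B) := by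
    refine ⟨F.T K a₀ ℓst (ℓ / B), ?_, le_rfl⟩
    have h3 := Tt_spec hF ha0 hℓB (F.Th K)
    have h4 : Tt F.A₀ F.P (F.Th K) a₀ ℓst + F.T K a₀ ℓst (ℓ / B) = Tt F.A₀ F.P (F.Th K) a₀ (ℓ / B) := by
      unfold Pm.T Pm.n₀
      omega
    have h5 : F.V K a₀ ℓst (F.T K a₀ ℓst (ℓ / B)) a₀ = fp F.A₀ F.P (Tt F.A₀ F.P (F.Th K) a₀ (ℓ / B)) a₀ := by
      unfold Pm.V Pm.n₀
      rw [h4]
    rw [h5]
    have h6 : F.Th K * B ≤ fp F.A₀ F.P (Tt F.A₀ F.P (F.Th K) a₀ (ℓ / B)) a₀ * ℓ := by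
      have h7 : fp F.A₀ F.P (Tt F.A₀ F.P (F.Th K) a₀ (ℓ / B)) a₀ * (ℓ / B) * B = fp F.A₀ F.P (Tt F.A₀ F.P (F.Th K) a₀ (ℓ / B)) a₀ * ℓ := by
        field_simp
      rw [← h7]
      exact mul_le_mul_of_nonneg_right h3 (by linarith)
    refine le_trans ?_ h6
    have h8 : F.Th K * B = 2 ^ (F.C₁ * F.E K + K ^ 3) := by
      unfold Pm.Th
      rw [hB, pow_add]
    rw [h8]
    exact pow_le_pow_right₀ (by norm_num) hexp
  have hex' : ∃ j, (2 : ℝ) ^ (F.C₂ * F.E K) ≤ F.V K a₀ ℓst j a₀ * ℓ := ⟨hex.choose, hex.choose_spec.1⟩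
  set t₁ := Nat.find hex' with ht
  have ht1 : (2 : ℝ) ^ (F.C₂ * F.E K) ≤ F.V K a₀ ℓst t₁ a₀ * ℓ := Nat.find_spec hex'
  have ht2 : t₁ ≤ F.T K a₀ ℓst (ℓ / B) := (Nat.find_min' hex' hex.choose_spec.1).trans hex.choose_spec.2
  have hRE : F.Q ≤ F.R * F.E K := by
    have h3 : F.X ≤ F.R := by
      unfold Pm.R
      have h4 : F.X ≤ F.X * (F.C₁ + 20) := Nat.le_mul_of_pos_right _ (by omega)
      omega
    calc F.Q ≤ F.R := by omega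
      _ ≤ F.R * F.E K := Nat.le_mul_of_pos_right _ hE1
  obtain ⟨t, htt1, htt2, htQ⟩ := exists_class hi (F.n₀ K a₀ ℓst) t₁
  have ht3 : t < 2 ^ (2 * K) := by omega
  have hVm : F.V K a₀ ℓst t₁ a₀ ≤ F.V K a₀ ℓst t a₀ := V_mono hF hK S le_rfl htt1
  refine ⟨t, ht3, htQ, ht1.trans (mul_le_mul_of_nonneg_right hVm hℓ.le), ?_⟩
  -- the time `t₁` is positive
  have hV0 : F.V K a₀ ℓst 0 a₀ * ℓ < 2 ^ (F.C₂ * F.E K) := by
    set N := Tt F.A₀ F.P (F.Th K) a₀ ℓst with hN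
    have hN2 : F.P + 1 ≤ N := Tt_big hF hst hst1 hThg ha0
    have hP := hF.hP
    have h3 : fp F.A₀ F.P (N - 1) a₀ * ℓst < F.Th K := lt_Tt (by omega)
    have h4 : fp F.A₀ F.P ((N - 1) + 1) a₀ ≤ (2 * a₀) ^ 1 * fp F.A₀ F.P (N - 1) a₀ := fp_step_le hA hP (by omega) ha01.le 1
    have h5 : (N - 1) + 1 = N := by omega
    rw [h5, pow_one] at h4
    have h6 : F.V K a₀ ℓst 0 a₀ = fp F.A₀ F.P N a₀ := by
      unfold Pm.V Pm.n₀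
      rw [← hN, Nat.add_zero]
    rw [h6]
    have hVn : 0 ≤ fp F.A₀ F.P N a₀ := fp_nonneg hA ha0p
    have ha0X : a₀ ≤ 2 ^ F.X := by
      have := S.hi
      linarith [hF.hx2]
    have h7 : fp F.A₀ F.P N a₀ * ℓ ≤ fp F.A₀ F.P N a₀ * ℓst := mul_le_mul_of_nonneg_left hle hVn
    have h8 : fp F.A₀ F.P N a₀ * ℓst ≤ 2 * a₀ * (fp F.A₀ F.P (N - 1) a₀ * ℓst) := by
      calc fp F.A₀ F.P N a₀ * ℓst ≤ 2 * a₀ * fp F.A₀ F.P (N - 1) a₀ * ℓst := mul_le_mul_of_nonneg_right h4 hst.le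
        _ = 2 * a₀ * (fp F.A₀ F.P (N - 1) a₀ * ℓst) := by ring
    have h9 : 2 * a₀ * (fp F.A₀ F.P (N - 1) a₀ * ℓst) < 2 * a₀ * F.Th K := mul_lt_mul_of_pos_left h3 (by positivity)
    have h10 : 2 * a₀ * F.Th K ≤ 2 ^ (F.X + 1 + F.C₁ * F.E K) := by
      unfold Pm.Th
      rw [pow_add, pow_succ]
      exact mul_le_mul_of_nonneg_right (by linarith) (by positivity)
    have h12 : F.X + 1 + F.C₁ * F.E K ≤ F.C₂ * F.E K := by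
      have h13 : F.C₂ = F.C₁ + F.C₀ + 30 := rfl
      have h14 : F.X + 1 ≤ 30 * F.E K := by omega
      calc F.X + 1 + F.C₁ * F.E K ≤ 30 * F.E K + F.C₁ * F.E K := by omega
        _ = (F.C₁ + 30) * F.E K := by ring
        _ ≤ (F.C₁ + F.C₀ + 30) * F.E K := Nat.mul_le_mul_right _ (by omega)
        _ = F.C₂ * F.E K := by rw [h13]
    have h15 : (2 : ℝ) ^ (F.X + 1 + F.C₁ * F.E K) ≤ 2 ^ (F.C₂ * F.E K) := pow_le_pow_right₀ (by norm_num) h12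
    linarith
  have htpos : t₁ ≠ 0 := by
    intro h
    rw [h] at ht1
    linarith
  obtain ⟨u, hu⟩ := Nat.exists_eq_succ_of_ne_zero htpos
  have hu1 : F.V K a₀ ℓst u a₀ * ℓ < 2 ^ (F.C₂ * F.E K) := by
    have h3 := Nat.find_min hex' (m := u) (by omega)
    exact not_le.1 h3
  have h3 : F.V K a₀ ℓst (u + (t + F.d - u)) a₀ ≤ 2 ^ F.E K / 8 * F.V K a₀ ℓst u a₀ :=
    V_steps hF hK S le_rfl (by linarith) (by omega)
  have h4 : u + (t + F.d - u) = t + F.d := by omega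
  rw [h4] at h3
  have h5 := (V_near hF hK S (a := a₀) (x := a + ℓ) (j := t + F.d) le_rfl (by linarith) h2 (by omega)).2
  have hVt : 0 ≤ F.V K a₀ ℓst u a₀ := fp_nonneg hA ha0p
  calc F.V K a₀ ℓst (t + F.d) (a + ℓ) * ℓ ≤ 2 * F.V K a₀ ℓst (t + F.d) a₀ * ℓ := mul_le_mul_of_nonneg_right h5 hℓ.le
    _ ≤ 2 * (2 ^ F.E K / 8 * F.V K a₀ ℓst u a₀) * ℓ := by
        refine mul_le_mul_of_nonneg_right ?_ hℓ.le
        linarith
    _ = 2 ^ F.E K / 4 * (F.V K a₀ ℓst u a₀ * ℓ) := by ring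
    _ ≤ 2 ^ F.E K / 4 * 2 ^ (F.C₂ * F.E K) := mul_le_mul_of_nonneg_left hu1.le (by positivity)
    _ ≤ 2 ^ F.E K * 2 ^ (F.C₂ * F.E K) := by
        have h6 : (0 : ℝ) < 2 ^ F.E K * 2 ^ (F.C₂ * F.E K) := by positivity
        linarith
    _ = 2 ^ ((F.C₂ + 1) * F.E K) := by rw [← pow_add]; ring_nf

end Pool.Agent.Helper30.LD7
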